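import Mathlib
import Pool.Agent.TH712.HG.HallX

/-!
# MP_f2148a_nt: Hall's inequality, with exponents below his, for sparse integers

Hall's question asks for `max (|x|, |y|) ≤ C |k| ^ 3` if `y ^ 2 = x ^ 3 + k`, `k ≠ 0`. Here this is
proved, with the exponent `3` replaced by a smaller one (depending on the number of terms),

* for all pairs `(x, y)` of sums of boundedly many elements of a fixed finitely generated group
  of rational numbers with bounded coefficients (for instance `S`-units, in particular integers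
  with boundedly many nonzero digits in boundedly many bases, but also sums mixing all the primes
  of `S`),
* for ALL integers `y`, if `x` is a sum of boundedly many `S`-units with bounded coefficients one
  of which dominates the others by a power.

Both are special cases of inequalities `max (|x| ^ p, |y| ^ q) ^ (1 - 1 / p - 1 / q + δ) ≤
(K M) ^ K |y ^ q - x ^ p|` with explicit dependence on the bound `M` for the coefficients.

The proof: the method of `Pool.Agent.TH551.HA` (Davenport's argument with the Wronskian, carried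
out for the integers themselves at all the places of `S`, in an ultrapower) gives the exponent
`1 - 1 / p - 1 / q - ε` (and `Pool.Agent.TH419.HX` reduces an arbitrary `y` to a sparse one). The
point here: if the classes of the terms of `x` and `y` are compared with the class of 1, the part
of the Wronskian in the class of 1 is identically zero, as no class of a term of `x` is inverse to
the class of a term of `y`, all the terms being integral up to negligible factors; every other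
part is an `S`-unit of positive height which is integral up to negligible factors, so it is at least
a power of the height in absolute value. This is the analogue for `S`-units of the additional `1` in
Davenport's inequality `deg (y ^ 2 - x ^ 3) ≥ deg x / 2 + 1` for polynomials.
-/

set_option autoImplicit false

namespace Pool.Agent.Results.MP_f2148a_nt.ExponentBelowThree

/-- `x` is the sum of the `a i * u i`, where the `u i` are positive integers with all prime factors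
in `S`, the first one dominates, and the `a i` are integers of absolute value at most `M` -/
def Sparse (S : Finset ℕ) (r : ℕ) (η M : ℝ) (u : Fin (r + 1) → ℕ) (a : Fin (r + 1) → ℤ)
    (x : ℤ) : Prop :=
  (∀ i, u i ≠ 0 ∧ (u i).primeFactors ⊆ S) ∧
  (∀ i, i ≠ 0 → (u i : ℝ) ≤ (u 0 : ℝ) ^ (1 - η)) ∧ a 0 ≠ 0 ∧ (∀ i, |(a i : ℝ)| ≤ M) ∧
  x = ∑ i, a i * (u i : ℤ)

theorem general (p q r H : ℕ) (hp : 1 ≤ p) (hq : 1 ≤ q) (S : Finset ℕ) (η : ℝ) (hη : 0 < η) :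
    ∃ δ : ℝ, 0 < δ ∧ ∃ K : ℝ, 0 < K ∧ ∀ M : ℝ, 1 ≤ M →
      ∀ (u : Fin (r + 1) → ℕ) (a : Fin (r + 1) → ℤ) (x : ℤ),
      Sparse S r η M u a x → (∃ e h : ℤ, a 0 ^ p = e * h ^ q ∧ |e| ≤ H) →
      ∀ y : ℤ, y ^ q ≠ x ^ p →
      (max (|(x : ℝ)| ^ p) (|(y : ℝ)| ^ q)) ^ (1 - 1 / (p : ℝ) - 1 / (q : ℝ) + δ) ≤
        (K * M) ^ K * |(y : ℝ) ^ q - (x : ℝ) ^ p| := by
  obtain ⟨δ, hδ, K, hK, h⟩ := Pool.Agent.TH712.HG.hallX' p q r H hp hq (S.filter Nat.Prime)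
    (fun p hp => (Finset.mem_filter.1 hp).2) η hη
  refine ⟨δ, hδ, K, hK, ?_⟩
  rintro M hM u a x ⟨h1, h2, h3, h4, h5⟩ ⟨e, f, h6, h7⟩ y hy
  refine h M hM u a (fun i => ⟨(h1 i).1, fun p hp => ?_⟩) h2 h3 h4 e f h6 h7 x y h5 hy
  exact Finset.mem_filter.2 ⟨(h1 i).2 hp, Nat.prime_of_mem_primeFactors hp⟩

/-- from the exponent `1 / 6 + δ` to the exponents in Hall's inequality -/
theorem exponents (δ B κ X Y : ℝ) (hδ : 0 < δ) (hB : 1 ≤ B) (hκ : 1 ≤ κ) (hX : 0 ≤ X)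
    (hY : 0 ≤ Y) (h : (max (X ^ 3) (Y ^ 2)) ^ (1 / 6 + δ) ≤ B * κ) :
    X ≤ B ^ (3 : ℝ) * κ ^ (2 - (2 - 2 / (1 + 6 * δ))) ∧
      Y ≤ B ^ (3 : ℝ) * κ ^ (3 - (2 - 2 / (1 + 6 * δ))) := by
  have hB0 : 0 < B := by linarith
  have hκ0 : 0 < κ := by linarith
  have hd : 0 < 1 + 6 * δ := by linarith
  have hZ0 : 0 ≤ max (X ^ 3) (Y ^ 2) := le_max_of_le_left (by positivity)
  have key : ∀ (W : ℝ) (j : ℕ), 0 ≤ W → 0 < j → (j : ℝ) ≤ 3 → W ^ (6 / (j : ℝ)) ≤
      max (X ^ 3) (Y ^ 2) → W ≤ B ^ (3 : ℝ) * κ ^ ((j : ℝ) / (1 + 6 * δ)) := by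
    intro W j hW hj hj3 hWZ
    have hj0 : (0 : ℝ) < j := by exact_mod_cast hj
    have h1 : W = (W ^ (6 / (j : ℝ))) ^ ((j : ℝ) / 6) := by
      rw [← Real.rpow_mul hW]
      have : 6 / (j : ℝ) * (j / 6) = 1 := by field_simp
      rw [this, Real.rpow_one]
    have h2 : (max (X ^ 3) (Y ^ 2)) ^ ((j : ℝ) / 6) =
        ((max (X ^ 3) (Y ^ 2)) ^ (1 / 6 + δ)) ^ ((j : ℝ) / (1 + 6 * δ)) := by
      rw [← Real.rpow_mul hZ0]
      congr 1
      field_simp
    calc W = (W ^ (6 / (j : ℝ))) ^ ((j : ℝ) / 6) := h1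
      _ ≤ (max (X ^ 3) (Y ^ 2)) ^ ((j : ℝ) / 6) :=
          Real.rpow_le_rpow (by positivity) hWZ (by positivity)
      _ = ((max (X ^ 3) (Y ^ 2)) ^ (1 / 6 + δ)) ^ ((j : ℝ) / (1 + 6 * δ)) := h2
      _ ≤ (B * κ) ^ ((j : ℝ) / (1 + 6 * δ)) :=
          Real.rpow_le_rpow (by positivity) h (by positivity)
      _ = B ^ ((j : ℝ) / (1 + 6 * δ)) * κ ^ ((j : ℝ) / (1 + 6 * δ)) :=
          Real.mul_rpow hB0.le hκ0.le
      _ ≤ B ^ (3 : ℝ) * κ ^ ((j : ℝ) / (1 + 6 * δ)) := by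
          refine mul_le_mul_of_nonneg_right ?_ (by positivity)
          refine Real.rpow_le_rpow_of_exponent_le hB ?_
          rw [div_le_iff₀ hd]
          nlinarith
  constructor
  · have h1 := key X 2 hX (by norm_num) (by norm_num) (by
      have h2 : (6 : ℝ) / ((2 : ℕ) : ℝ) = ((3 : ℕ) : ℝ) := by norm_num
      rw [h2, Real.rpow_natCast]
      exact le_max_left _ _)
    have h3 : 2 - (2 - 2 / (1 + 6 * δ)) = ((2 : ℕ) : ℝ) / (1 + 6 * δ) := by
      push_cast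
      ring
    rw [h3]
    exact h1
  · have h1 := key Y 3 hY (by norm_num) (by norm_num) (by
      have h2 : (6 : ℝ) / ((3 : ℕ) : ℝ) = ((2 : ℕ) : ℝ) := by norm_num
      rw [h2, Real.rpow_natCast]
      exact le_max_right _ _)
    refine h1.trans (mul_le_mul_of_nonneg_left ?_ (by positivity))
    refine Real.rpow_le_rpow_of_exponent_le hκ ?_
    have h3 : 1 / (1 + 6 * δ) ≤ 1 := by
      rw [div_le_iff₀ hd]
      linarith
    have h4 : 3 - (2 - 2 / (1 + 6 * δ)) = 1 + 2 * (1 / (1 + 6 * δ)) := by ring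
    have h5 : ((3 : ℕ) : ℝ) / (1 + 6 * δ) = 3 * (1 / (1 + 6 * δ)) := by
      push_cast
      ring
    rw [h4, h5]
    linarith

/-- the gain in the exponents is positive -/
theorem gain_pos (δ : ℝ) (hδ : 0 < δ) : 0 < 2 - 2 / (1 + 6 * δ) := by
  have h1 : 2 / (1 + 6 * δ) < 2 := by
    rw [div_lt_iff₀ (by linarith)]
    linarith
  linarith

/-- the left side of the inequality, in terms of Hall's equation -/
theorem left_eq (δ : ℝ) (x y : ℤ) :
    (max (|(x : ℝ)| ^ 3) (|(y : ℝ)| ^ 2)) ^ (1 - 1 / ((3 : ℕ) : ℝ) - 1 / ((2 : ℕ) : ℝ) + δ) =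
      (max (|(x : ℝ)| ^ 3) (|(y : ℝ)| ^ 2)) ^ (1 / 6 + δ) := by
  congr 1
  push_cast
  ring

theorem diff_eq (d x y : ℤ) (h : y ^ 2 = x ^ 3 + d) : |(y : ℝ) ^ 2 - (x : ℝ) ^ 3| = |(d : ℝ)| := by
  have h3 : ((y ^ 2 : ℤ) : ℝ) = ((x ^ 3 + d : ℤ) : ℝ) := by rw [h]
  push_cast at h3
  rw [h3]
  congr 1
  ring

/-- for a constant that is at least 1 -/
theorem const_le {K M : ℝ} (hK : 0 < K) (hM : 1 ≤ M) :
    (K * M) ^ K ≤ (max K 1 * M) ^ (max K 1) ∧ 1 ≤ (max K 1 * M) ^ (max K 1) := by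
  have h1 : 1 ≤ max K 1 := le_max_right _ _
  have h2 : 1 ≤ max K 1 * M := one_le_mul_of_one_le_of_one_le h1 hM
  refine ⟨?_, Real.one_le_rpow h2 (by linarith)⟩
  calc (K * M) ^ K ≤ (max K 1 * M) ^ K := by
        refine Real.rpow_le_rpow (by positivity) ?_ hK.le
        exact mul_le_mul_of_nonneg_right (le_max_left _ _) (by linarith)
    _ ≤ (max K 1 * M) ^ (max K 1) := Real.rpow_le_rpow_of_exponent_le h2 (le_max_left _ _)

/-- **Hall's inequality with smaller exponents for sparse integers.** -/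
theorem result :
    -- all integral points whose abscissa is sparse with a dominating term
    (∀ (S : Finset ℕ) (r H : ℕ) (η : ℝ), 0 < η → ∃ δ C : ℝ, 0 < δ ∧ ∀ k x y : ℤ, k ≠ 0 →
      y ^ 2 = x ^ 3 + k → (∃ u a, Sparse S r η H u a x) →
      |(x : ℝ)| ≤ C * |(k : ℝ)| ^ (2 - δ) ∧ |(y : ℝ)| ≤ C * |(k : ℝ)| ^ (3 - δ)) ∧
    -- all integral points both of whose coordinates are sparse
    (∀ (r : ℕ) (Γ : Subgroup ℚˣ), Γ.FG → ∃ δ K : ℝ, 0 < δ ∧ 0 < K ∧ ∀ M : ℝ, 1 ≤ M →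
      ∀ (u : Fin r → Γ) (a c : Fin r → ℤ), (∀ j, |(a j : ℝ)| ≤ M) → (∀ j, |(c j : ℝ)| ≤ M) →
      ∀ k x y : ℤ, (x : ℚ) = ∑ j, ((u j : ℚˣ) : ℚ) * a j →
      (y : ℚ) = ∑ j, ((u j : ℚˣ) : ℚ) * c j → k ≠ 0 → y ^ 2 = x ^ 3 + k →
      |(x : ℝ)| ≤ (K * M) ^ K * |(k : ℝ)| ^ (2 - δ) ∧
        |(y : ℝ)| ≤ (K * M) ^ K * |(k : ℝ)| ^ (3 - δ)) ∧
    -- the same for `y ^ q - x ^ p`
    (∀ (p q r H : ℕ), 1 ≤ p → 1 ≤ q → ∀ (S : Finset ℕ) (η : ℝ), 0 < η →
      ∃ δ : ℝ, 0 < δ ∧ ∃ K : ℝ, 0 < K ∧ ∀ M : ℝ, 1 ≤ M →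
        ∀ (u : Fin (r + 1) → ℕ) (a : Fin (r + 1) → ℤ) (x : ℤ),
        Sparse S r η M u a x → (∃ e h : ℤ, a 0 ^ p = e * h ^ q ∧ |e| ≤ H) →
        ∀ y : ℤ, y ^ q ≠ x ^ p →
        (max (|(x : ℝ)| ^ p) (|(y : ℝ)| ^ q)) ^ (1 - 1 / (p : ℝ) - 1 / (q : ℝ) + δ) ≤
          (K * M) ^ K * |(y : ℝ) ^ q - (x : ℝ) ^ p|) ∧
    (∀ (p q r : ℕ), 1 ≤ p → 1 ≤ q → ∀ Γ : Subgroup ℚˣ, Γ.FG →
      ∃ δ : ℝ, 0 < δ ∧ ∃ K : ℝ, 0 < K ∧ ∀ M : ℝ, 1 ≤ M →
        ∀ (u : Fin r → Γ) (a c : Fin r → ℤ), (∀ j, |(a j : ℝ)| ≤ M) → (∀ j, |(c j : ℝ)| ≤ M) →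
        ∀ x y : ℤ, (x : ℚ) = ∑ j, ((u j : ℚˣ) : ℚ) * a j →
        (y : ℚ) = ∑ j, ((u j : ℚˣ) : ℚ) * c j → y ^ q ≠ x ^ p →
        (max (|(x : ℝ)| ^ p) (|(y : ℝ)| ^ q)) ^ (1 - 1 / (p : ℝ) - 1 / (q : ℝ) + δ) ≤
          (K * M) ^ K * |(y : ℝ) ^ q - (x : ℝ) ^ p|) := by
  refine ⟨?_, ?_, fun p q r H hp hq S η hη => general p q r H hp hq S η hη,
    fun p q r hp hq Γ hΓ => Pool.Agent.TH712.HG.hallPow' p q r hp hq Γ hΓ⟩
  · intro S r H η hη
    obtain ⟨δ, hδ, K, hK, h⟩ := general 3 2 r (H ^ 3) (by norm_num) (by norm_num) S η hη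
    have hM1 : (1 : ℝ) ≤ max (H : ℝ) 1 := le_max_right _ _
    obtain ⟨hB1, hB2⟩ := const_le hK hM1
    set B : ℝ := (max K 1 * max (H : ℝ) 1) ^ (max K 1) with hB
    refine ⟨2 - 2 / (1 + 6 * δ), B ^ (3 : ℝ), gain_pos δ hδ, ?_⟩
    rintro k x y hk hxy ⟨u, a, hS⟩
    have hk1 : (1 : ℝ) ≤ |(k : ℝ)| := by
      have : 1 ≤ |k| := Int.one_le_abs hk
      exact_mod_cast this
    have haH : |(a 0 : ℝ)| ≤ H := hS.2.2.2.1 0
    have h1 := h (max (H : ℝ) 1) hM1 u a x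
      ⟨hS.1, hS.2.1, hS.2.2.1, fun i => (hS.2.2.2.1 i).trans (le_max_left _ _), hS.2.2.2.2⟩
      ⟨a 0 ^ 3, 1, by ring, by
        rw [abs_pow]
        have h2 : |a 0| ≤ H := by exact_mod_cast haH
        push_cast
        exact pow_le_pow_left₀ (abs_nonneg _) h2 3⟩ y (by
        rw [hxy]
        intro h2
        apply hk
        linarith)
    rw [left_eq, diff_eq k x y hxy] at h1
    exact exponents δ B |(k : ℝ)| |(x : ℝ)| |(y : ℝ)| hδ hB2 hk1 (abs_nonneg _) (abs_nonneg _)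
      (h1.trans (mul_le_mul_of_nonneg_right hB1 (abs_nonneg _)))
  · intro r Γ hΓ
    obtain ⟨δ, hδ, K, hK, h⟩ := Pool.Agent.TH712.HG.hallPow' 3 2 r (by norm_num) (by norm_num)
      Γ hΓ
    refine ⟨2 - 2 / (1 + 6 * δ), 3 * max K 1, gain_pos δ hδ, by positivity, ?_⟩
    intro M hM u a c ha hc k x y hx hy hk hxy
    obtain ⟨hB1, hB2⟩ := const_le hK hM
    set B : ℝ := (max K 1 * M) ^ (max K 1) with hB
    have hk1 : (1 : ℝ) ≤ |(k : ℝ)| := by
      have : 1 ≤ |k| := Int.one_le_abs hk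
      exact_mod_cast this
    have h1 := h M hM u a c ha hc x y hx hy (by
      rw [hxy]
      intro h2
      apply hk
      linarith)
    rw [left_eq, diff_eq k x y hxy] at h1
    have hBle : B ^ (3 : ℝ) ≤ (3 * max K 1 * M) ^ (3 * max K 1) := by
      have h2 : 1 ≤ max K 1 := le_max_right _ _
      have h3 : 0 < max K 1 * M := by positivity
      rw [hB, ← Real.rpow_mul h3.le, mul_comm (max K 1) 3]
      refine Real.rpow_le_rpow h3.le ?_ (by positivity)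
      nlinarith
    obtain ⟨h2, h3⟩ := exponents δ B |(k : ℝ)| |(x : ℝ)| |(y : ℝ)| hδ hB2 hk1 (abs_nonneg _)
      (abs_nonneg _) (h1.trans (mul_le_mul_of_nonneg_right hB1 (abs_nonneg _)))
    exact ⟨h2.trans (mul_le_mul_of_nonneg_right hBle (by positivity)),
      h3.trans (mul_le_mul_of_nonneg_right hBle (by positivity))⟩

end Pool.Agent.Results.MP_f2148a_nt.ExponentBelowThree
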