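import Pool.Agent.TH143.HL.Grp

set_option autoImplicit false

/-!
# Hall's inequality, with its conjectured exponents, along exponential families

Let `x` and `y` be sequences of integers which are sums of exponentials `∑ a_i α_i ^ m` (simple
linear recurrence sequences), and `k_m = y_m ^ 2 - x_m ^ 3`.

1. If the roots of `x` and of `y` lie in a group of nonzero complex numbers in which only `1` has
   absolute value `1` (for instance, if they are positive real numbers, or powers of one number of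
   absolute value different from `1`), then there is `C` with `max (|x_m|, |y_m|) ≤ C |k_m| ^ 3`
   for all `m` with `k_m ≠ 0`.
2. If only `x` has a dominant root and `k` is not identically zero, this holds (with `k_n ≠ 0`) for
   at least one `n` in every interval of length `R`.
3. If `x` has a dominant root and `|k_(m+1)| ≤ B |k_m|` for all large `m`, it holds for all `m` with
   `k_m ≠ 0`.

Method: let `D` be the derivation of the ring of sums of exponentials given by an additive function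
`l` on the multiplicative group. Then `y (2 x D y - 3 y D x) = x D k - 3 k D x`. The values of
`2 x D y - 3 y D x` are algebraic numbers with bounded denominators, and so at least one of the
conjugates is bounded below; as `x`, `y`, `k` are rational, all conjugates of `(D k)_m` and `(D x)_m`
are bounded by the values of `k` and `x` in an interval of bounded length.
-/

namespace Pool.Agent.Results.MP_f2148a_nt.ExponentialFamilies

open Pool.Agent.TH143.HL

/-- The integers `x m` are the sums of exponentials `∑ a i * α i ^ m`, with `α i ≠ 0`. -/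
def IsExpSum {K : Type} [Field K] {r : ℕ} (α a : Fin r → K) (x : ℕ → ℤ) : Prop :=
  (∀ i, α i ≠ 0) ∧ ∀ m, (x m : K) = ∑ i, a i * α i ^ m

/-- Hall's inequality for `(x, y)`, with constant `C`. -/
def HallIneq (C : ℝ) (x y : ℤ) : Prop :=
  max |(x : ℝ)| |(y : ℝ)| ≤ C * |((y ^ 2 - x ^ 3 : ℤ) : ℝ)| ^ 3

/-- The root `α i₀` occurs and is larger than all others in the embedding `φ`. -/
def Dominant {K : Type} [Field K] (φ : K →+* ℂ) {r : ℕ} (α a : Fin r → K) (i₀ : Fin r) : Prop :=
  a i₀ ≠ 0 ∧ ∀ i, i ≠ i₀ → ‖φ (α i)‖ < ‖φ (α i₀)‖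

theorem ev_of {K : Type} [Field K] {r : ℕ} (α a : Fin r → K) (x : ℕ → ℤ) (h : IsExpSum α a x)
    (m : ℕ) : ev m (mk (fun i => Units.mk0 (α i) (h.1 i)) a) = x m := by
  rw [ev_mk, h.2 m]
  rfl

theorem dominant_of {K : Type} [Field K] (φ : K →+* ℂ) {r : ℕ} (α a : Fin r → K) (x : ℕ → ℤ)
    (h : IsExpSum α a x) (i₀ : Fin r) (hi : Dominant φ α a i₀) :
    Units.mk0 (α i₀) (h.1 i₀) ∈ (mk (fun i => Units.mk0 (α i) (h.1 i)) a).coeff.support ∧
    ∀ g ∈ (mk (fun i => Units.mk0 (α i) (h.1 i)) a).coeff.support,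
      g ≠ Units.mk0 (α i₀) (h.1 i₀) →
      ‖φ (g : K)‖ < ‖φ ((Units.mk0 (α i₀) (h.1 i₀) : Kˣ) : K)‖ := by
  classical
  constructor
  · rw [Finsupp.mem_support_iff, coeff_mk, Finset.sum_eq_single_of_mem i₀ (Finset.mem_univ _),
      if_pos rfl]
    · exact hi.1
    · intro i _ hne
      rw [if_neg]
      intro he
      have h1 : α i = α i₀ := congrArg (fun u : Kˣ => (u : K)) he
      have h2 := hi.2 i hne
      rw [h1] at h2
      exact lt_irrefl _ h2
  · intro g hg hne
    obtain ⟨i, rfl⟩ := mem_mk _ _ g hg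
    exact hi.2 i fun h' => hne (by rw [h'])

theorem ne_zero_of {K : Type} [Field K] [CharZero K] (X Y : MonoidAlgebra K Kˣ) (x y : ℕ → ℤ)
    (hx : ∀ m, ev m X = x m) (hy : ∀ m, ev m Y = y m) (m : ℕ) (h : y m ^ 2 ≠ x m ^ 3) :
    Y ^ 2 - X ^ 3 ≠ 0 := by
  intro h0
  have h1 := congrArg (ev m) h0
  rw [map_sub, map_pow, map_pow, hx, hy, map_zero, sub_eq_zero] at h1
  exact h (by exact_mod_cast h1)

theorem result (K : Type) [Field K] [NumberField K] (φ : K →+* ℂ) (r s : ℕ) (α a : Fin r → K)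
    (β b : Fin s → K) (x y : ℕ → ℤ) (hx : IsExpSum α a x) (hy : IsExpSum β b y) :
    -- (1) roots in a group in which only `1` has absolute value `1`
    (∀ T : Subgroup Kˣ, (∀ g ∈ T, ‖φ (g : K)‖ = 1 → g = 1) →
      (∀ i, ∃ g ∈ T, (g : K) = α i) → (∀ j, ∃ g ∈ T, (g : K) = β j) →
      ∃ C : ℝ, ∀ m, y m ^ 2 ≠ x m ^ 3 → HallIneq C (x m) (y m)) ∧
    -- (2) `x` has a dominant root: all intervals of bounded length
    ((∃ i₀, Dominant φ α a i₀) → (∃ m, y m ^ 2 ≠ x m ^ 3) →
      ∃ (R : ℕ) (C : ℝ), ∀ m, ∃ n, m ≤ n ∧ n < m + R ∧ y n ^ 2 ≠ x n ^ 3 ∧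
        HallIneq C (x n) (y n)) ∧
    -- (3) `x` has a dominant root and `k` has bounded quotients
    ((∃ i₀, Dominant φ α a i₀) →
      (∃ (B : ℝ) (m₁ : ℕ), ∀ m, m₁ ≤ m → |((y (m + 1) ^ 2 - x (m + 1) ^ 3 : ℤ) : ℝ)| ≤
        B * |((y m ^ 2 - x m ^ 3 : ℤ) : ℝ)|) →
      ∃ C : ℝ, ∀ m, y m ^ 2 ≠ x m ^ 3 → HallIneq C (x m) (y m)) := by
  refine ⟨?_, ?_, ?_⟩
  · intro T hT hα hβ
    refine group φ T hT (mk (fun i => Units.mk0 (α i) (hx.1 i)) a)
      (mk (fun i => Units.mk0 (β i) (hy.1 i)) b) ?_ ?_ x y (ev_of α a x hx) (ev_of β b y hy)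
    · intro g hg
      obtain ⟨i, rfl⟩ := mem_mk _ _ g hg
      obtain ⟨t, ht, he⟩ := hα i
      have : t = Units.mk0 (α i) (hx.1 i) := Units.ext he
      rwa [← this]
    · intro g hg
      obtain ⟨i, rfl⟩ := mem_mk _ _ g hg
      obtain ⟨t, ht, he⟩ := hβ i
      have : t = Units.mk0 (β i) (hy.1 i) := Units.ext he
      rwa [← this]
  · rintro ⟨i₀, hi⟩ ⟨m, hm⟩
    have h1 := dominant_of φ α a x hx i₀ hi
    exact windows φ _ _ x y (ev_of α a x hx) (ev_of β b y hy) _ h1.1 h1.2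
      (ne_zero_of _ _ x y (ev_of α a x hx) (ev_of β b y hy) m hm)
  · rintro ⟨i₀, hi⟩ ⟨B, m₁, hB⟩
    by_cases hne : ∃ m, y m ^ 2 ≠ x m ^ 3
    · obtain ⟨m, hm⟩ := hne
      have h1 := dominant_of φ α a x hx i₀ hi
      exact pointwise φ _ _ x y (ev_of α a x hx) (ev_of β b y hy) _ h1.1 h1.2
        (ne_zero_of _ _ x y (ev_of α a x hx) (ev_of β b y hy) m hm) B m₁ hB
    · exact ⟨0, fun m hm => absurd ⟨m, hm⟩ hne⟩

end Pool.Agent.Results.MP_f2148a_nt.ExponentialFamilies
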