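import Mathlib

/-!
# Hall's inequality and the rational approximations `t / q` of `√x`

Let `x > 0` and `y` be integers with `k = y ^ 2 - x ^ 3 ≠ 0`, and let `t / q` be a rational number in
lowest terms near `√x`. The integer

  `D = 3 X ^ 2 + 6 t ^ 2 X - 8 t Y - t ^ 4`, `X = q ^ 2 x`, `Y = q ^ 3 y`  (`t, y ≥ 0`),

is congruent to `- t ^ 4` modulo `q ^ 2`, and it is equal to `- (t - q θ) ^ 3 (t + 3 q θ)` if `x = θ ^ 2`,
`y = θ ^ 3`; so it is small if `t / q` is a good approximation of `√x` and `k` is small: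
`|D| q ^ 2 x ≤ 80 (q ^ 6 |k| + |q ^ 2 x - t ^ 2| ^ 3)`. But it is not zero for `q > 1`. Hence `k` is large
if `t / q` is close to `√x`, and more so if no integer congruent to `t ^ 4` modulo `q ^ 2` is small.

For every `x` Dirichlet's theorem gives such a `t / q` with `q` of order `x ^ (1 / 6)` at most; so Hall's
inequality holds for `x` and all `y` unless `t ^ 4` is congruent to an integer `D' ≠ 0` with
`|D'| ≤ ε q` modulo `q ^ 2`.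
-/
set_option autoImplicit false

namespace Pool.Agent.Results.MP_f2148a_nt.RationalSquares

/-- The basic inequality. -/
lemma core (t s Y : ℝ) (ht : 1 ≤ t) (hs : 10 * |s| ≤ t ^ 2) (hY : 0 ≤ Y)
    (hk : |(t ^ 2 + s) ^ 3 - Y ^ 2| ≤ t ^ 6) :
    t ^ 2 * |3 * s ^ 2 - 4 * t * (2 * Y - 2 * t ^ 3 - 3 * t * s)| ≤
      40 * |(t ^ 2 + s) ^ 3 - Y ^ 2| + 30 * |s| ^ 3 := by
  obtain ⟨u, hu⟩ : ∃ u, u = 2 * Y - 2 * t ^ 3 - 3 * t * s := ⟨_, rfl⟩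
  obtain ⟨κ, hκ⟩ : ∃ κ, κ = (t ^ 2 + s) ^ 3 - Y ^ 2 := ⟨_, rfl⟩
  rw [← hu, ← hκ]
  rw [← hκ] at hk
  have id1 : t ^ 2 * (3 * s ^ 2 - 4 * t * u) = 4 * κ - 4 * s ^ 3 + 6 * t * s * u + u ^ 2 := by
    rw [hu, hκ]; ring
  have id2 : u * (u + 4 * t ^ 3 + 6 * t * s) = 3 * t ^ 2 * s ^ 2 + 4 * s ^ 3 - 4 * κ := by
    rw [hu, hκ]; ring
  obtain ⟨a, ha⟩ : ∃ a, a = |s| := ⟨_, rfl⟩
  obtain ⟨c, hc⟩ : ∃ c, c = |κ| := ⟨_, rfl⟩
  obtain ⟨v, hv⟩ : ∃ v, v = |u| := ⟨_, rfl⟩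
  have ha0 : 0 ≤ a := ha ▸ abs_nonneg _
  have hc0 : 0 ≤ c := hc ▸ abs_nonneg _
  have hv0 : 0 ≤ v := hv ▸ abs_nonneg _
  have hs2 : s ^ 2 = a ^ 2 := by rw [ha, sq_abs]
  have ht0 : 0 < t := by linarith
  have ht3 : 0 < t ^ 3 := by positivity
  have hts : |t * s| ≤ t ^ 3 / 10 := by
    rw [abs_mul, abs_of_pos ht0]
    have : t * (10 * |s|) ≤ t * t ^ 2 := by gcongr
    nlinarith
  have hts' := abs_le.mp hts
  have hpos : t ^ 3 ≤ u + 4 * t ^ 3 + 6 * t * s := by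
    have : u + 4 * t ^ 3 + 6 * t * s = 2 * Y + 2 * t ^ 3 + 3 * (t * s) := by rw [hu]; ring
    rw [this]; linarith [hts'.1]
  rw [← ha] at hs
  rw [← hc] at hk
  rw [← ha, ← hc]
  -- bound for u
  have h1 : v * t ^ 3 ≤ 3.4 * t ^ 2 * a ^ 2 + 4 * c := by
    have e1 : v * t ^ 3 ≤ |u * (u + 4 * t ^ 3 + 6 * t * s)| := by
      rw [abs_mul, hv]
      gcongr
      exact hpos.trans (le_abs_self _)
    rw [id2] at e1
    have e2 : |3 * t ^ 2 * s ^ 2 + 4 * s ^ 3 - 4 * κ| ≤ 3 * t ^ 2 * a ^ 2 + 4 * a ^ 3 + 4 * c := by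
      have : |3 * t ^ 2 * s ^ 2| = 3 * t ^ 2 * a ^ 2 := by
        rw [hs2]; exact abs_of_nonneg (by positivity)
      have h4 : |4 * s ^ 3| = 4 * a ^ 3 := by
        rw [abs_mul, abs_pow, ← ha]; norm_num
      have h5 : |4 * κ| = 4 * c := by rw [abs_mul, ← hc]; norm_num
      calc |3 * t ^ 2 * s ^ 2 + 4 * s ^ 3 - 4 * κ|
          ≤ |3 * t ^ 2 * s ^ 2 + 4 * s ^ 3| + |4 * κ| := abs_sub _ _
        _ ≤ |3 * t ^ 2 * s ^ 2| + |4 * s ^ 3| + |4 * κ| := by gcongr; exact abs_add_le _ _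
        _ = _ := by rw [this, h4, h5]
    have e3 : 4 * a ^ 3 ≤ 0.4 * t ^ 2 * a ^ 2 := by
      have : a ^ 2 * (10 * a) ≤ a ^ 2 * t ^ 2 := by gcongr
      nlinarith
    linarith
  have h2 : 6 * t * a * v ≤ 20.4 * a ^ 3 + 2.4 * c := by
    have e1 : t ^ 2 * (6 * t * a * v) ≤ t ^ 2 * (20.4 * a ^ 3 + 2.4 * c) := by
      have : 6 * a * (v * t ^ 3) ≤ 6 * a * (3.4 * t ^ 2 * a ^ 2 + 4 * c) := by gcongr
      have e4 : (10 * a) * c ≤ t ^ 2 * c := by gcongr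
      nlinarith
    exact le_of_mul_le_mul_left e1 (by positivity)
  have h3 : v ^ 2 ≤ 2.4 * a ^ 3 + 32 * c := by
    have e1 : (v * t ^ 3) ^ 2 ≤ (3.4 * t ^ 2 * a ^ 2 + 4 * c) ^ 2 := by
      gcongr
    have e2 : (3.4 * t ^ 2 * a ^ 2 + 4 * c) ^ 2 ≤ 2 * (3.4 * t ^ 2 * a ^ 2) ^ 2 + 2 * (4 * c) ^ 2 := by
      nlinarith [sq_nonneg (3.4 * t ^ 2 * a ^ 2 - 4 * c)]
    have e3 : t ^ 4 * a ^ 4 ≤ t ^ 6 * a ^ 3 / 10 := by
      have : t ^ 4 * a ^ 3 * (10 * a) ≤ t ^ 4 * a ^ 3 * t ^ 2 := by gcongr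
      nlinarith
    have e4 : c ^ 2 ≤ c * t ^ 6 := by
      rw [sq]; gcongr
    have e5 : t ^ 6 * v ^ 2 ≤ t ^ 6 * (2.4 * a ^ 3 + 32 * c) := by
      have : 0 ≤ t ^ 6 * a ^ 3 := by positivity
      nlinarith
    exact le_of_mul_le_mul_left e5 (by positivity)
  have h4 : t ^ 2 * |3 * s ^ 2 - 4 * t * u| = |4 * κ - 4 * s ^ 3 + 6 * t * s * u + u ^ 2| := by
    rw [← id1, abs_mul, abs_of_pos (by positivity : (0 : ℝ) < t ^ 2)]
  rw [h4]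
  have g1 : |4 * κ| = 4 * c := by rw [abs_mul, ← hc]; norm_num
  have g2 : |4 * s ^ 3| = 4 * a ^ 3 := by rw [abs_mul, abs_pow, ← ha]; norm_num
  have g3 : |6 * t * s * u| = 6 * t * a * v := by
    rw [abs_mul, abs_mul, abs_mul, abs_of_pos ht0, ← ha, ← hv]; norm_num
  have g4 : |u ^ 2| = v ^ 2 := by rw [abs_pow, ← hv]
  calc |4 * κ - 4 * s ^ 3 + 6 * t * s * u + u ^ 2|
      ≤ |4 * κ - 4 * s ^ 3 + 6 * t * s * u| + |u ^ 2| := abs_add_le _ _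
    _ ≤ |4 * κ - 4 * s ^ 3| + |6 * t * s * u| + |u ^ 2| := by gcongr; exact abs_add_le _ _
    _ ≤ |4 * κ| + |4 * s ^ 3| + |6 * t * s * u| + |u ^ 2| := by gcongr; exact abs_sub _ _
    _ = 4 * c + 4 * a ^ 3 + 6 * t * a * v + v ^ 2 := by rw [g1, g2, g3, g4]
    _ ≤ 40 * c + 30 * a ^ 3 := by
      have : 0 ≤ a ^ 3 := by positivity
      linarith


lemma q_eq_one {t q : ℤ} (hq : 0 < q) (hco : IsCoprime t q) (h : q ^ 2 ∣ t ^ 4) : q = 1 := by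
  have h1 : IsCoprime (t ^ 4) (q ^ 2) := hco.pow
  have h2 : IsUnit (q ^ 2) := h1.symm.isUnit_of_dvd' dvd_rfl h
  have h3 : IsUnit q := (isUnit_pow_iff (by norm_num)).mp h2
  rcases Int.isUnit_iff.mp h3 with h | h
  · exact h
  · omega

/-- The degenerate case. -/
lemma degenerate (x y T : ℤ) (hT : 1 ≤ T) (hne : y ^ 2 ≠ x ^ 3)
    (hs : 20 * |x - T ^ 2| ≤ x)
    (hD : 3 * (x - T ^ 2) ^ 2 - 4 * T * (2 * y - 2 * T ^ 3 - 3 * T * (x - T ^ 2)) = 0) :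
    x ^ 3 ≤ 200000 * (y ^ 2 - x ^ 3) ^ 4 := by
  obtain ⟨s, hsdef⟩ : ∃ s, s = x - T ^ 2 := ⟨_, rfl⟩
  obtain ⟨U, hU⟩ : ∃ U, U = 2 * y - 2 * T ^ 3 - 3 * T * s := ⟨_, rfl⟩
  rw [← hsdef, ← hU] at hD
  rw [← hsdef] at hs
  have hxs : x = T ^ 2 + s := by rw [hsdef]; ring
  have hy2 : 2 * y = U + 2 * T ^ 3 + 3 * T * s := by rw [hU]; ring
  have hid : 8 * (x ^ 3 - y ^ 2) = - s ^ 3 - 2 * U ^ 2 := by
    have h1 : 4 * y ^ 2 = (U + 2 * T ^ 3 + 3 * T * s) ^ 2 := by rw [← hy2]; ring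
    rw [hxs]
    linear_combination (-2) * h1 + (2 * T ^ 2 + 3 * s) * hD
  have habs := abs_nonneg s
  have h20 : 19 * |s| ≤ T ^ 2 := by
    have := le_abs_self s
    rw [hxs] at hs
    linarith
  have hs0 : s ≠ 0 := by
    intro h0
    rw [h0] at hD hid
    have hTU : T * U = 0 := by linarith
    rcases mul_eq_zero.mp hTU with h | h
    · omega
    · rw [h] at hid
      apply hne
      linarith
  have hU0 : 0 < U := by
    by_contra hle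
    push Not at hle
    have h1 : T * U ≤ 0 := by nlinarith
    have h2 : 0 < s ^ 2 := by positivity
    linarith
  have hsT : T ≤ s ^ 2 := by nlinarith
  have h1 : 1 ≤ |s| := Int.one_le_abs hs0
  -- 2U^2 ≤ |s|^3 / 2
  have hTpos : 0 < T ^ 2 := by positivity
  have hUU : 16 * (T ^ 2 * U ^ 2) = 9 * |s| ^ 4 := by
    have e : 4 * T * U = 3 * s ^ 2 := by linarith
    have e2 : (4 * T * U) ^ 2 = (3 * s ^ 2) ^ 2 := by rw [e]
    have e3 : |s| ^ 4 = s ^ 4 := by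
      rw [show (4 : ℕ) = 2 * 2 by norm_num, pow_mul, sq_abs, ← pow_mul]
    rw [e3]; linarith
  have hU2 : 4 * U ^ 2 ≤ |s| ^ 3 := by
    have h3 : 0 ≤ |s| ^ 3 := by positivity
    have e : T ^ 2 * (4 * U ^ 2) ≤ T ^ 2 * |s| ^ 3 := by
      have : |s| ^ 3 * (19 * |s|) ≤ |s| ^ 3 * T ^ 2 := by gcongr
      nlinarith
    exact le_of_mul_le_mul_left e hTpos
  have hk : |s| ^ 3 ≤ 16 * |y ^ 2 - x ^ 3| := by
    have e1 : |s ^ 3| = |s| ^ 3 := abs_pow _ _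
    have e2 : s ^ 3 = 8 * (y ^ 2 - x ^ 3) - 2 * U ^ 2 := by linarith
    have e3 : |s ^ 3| ≤ |8 * (y ^ 2 - x ^ 3)| + |2 * U ^ 2| := by rw [e2]; exact abs_sub _ _
    have e4 : |8 * (y ^ 2 - x ^ 3)| = 8 * |y ^ 2 - x ^ 3| := by rw [abs_mul]; norm_num
    have e5 : |2 * U ^ 2| = 2 * U ^ 2 := abs_of_nonneg (by positivity)
    rw [e1, e4, e5] at e3
    linarith
  have hk4 : |s| ^ 12 ≤ 65536 * (y ^ 2 - x ^ 3) ^ 4 := by
    have e1 : (|s| ^ 3) ^ 4 ≤ (16 * |y ^ 2 - x ^ 3|) ^ 4 := by gcongr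
    have e2 : |y ^ 2 - x ^ 3| ^ 4 = (y ^ 2 - x ^ 3) ^ 4 := by
      rw [show (4 : ℕ) = 2 * 2 by norm_num, pow_mul, sq_abs, ← pow_mul]
    calc |s| ^ 12 = (|s| ^ 3) ^ 4 := by ring
      _ ≤ _ := e1
      _ = 65536 * |y ^ 2 - x ^ 3| ^ 4 := by ring
      _ = _ := by rw [e2]
  have hT6 : T ^ 6 ≤ |s| ^ 12 := by
    have e1 : T ^ 6 ≤ (s ^ 2) ^ 6 := by gcongr
    calc T ^ 6 ≤ (s ^ 2) ^ 6 := e1
      _ = (|s| ^ 2) ^ 6 := by rw [sq_abs]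
      _ = _ := by ring
  have hx3 : x ^ 3 ≤ 2 * T ^ 6 := by
    have e1 : 19 * x ≤ 20 * T ^ 2 := by
      have := le_abs_self s
      linarith
    have e0 : 0 ≤ 19 * x := by linarith
    have e2 : (19 * x) ^ 3 ≤ (20 * T ^ 2) ^ 3 := pow_le_pow_left₀ e0 e1 3
    have e3 : (0 : ℤ) ≤ T ^ 6 := by positivity
    have e4 : (19 * x) ^ 3 = 6859 * x ^ 3 := by ring
    have e5 : (20 * T ^ 2) ^ 3 = 8000 * T ^ 6 := by ring
    rw [e4, e5] at e2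
    linarith
  have : (0 : ℤ) ≤ (y ^ 2 - x ^ 3) ^ 4 := by positivity
  linarith

lemma A_main (x y t q : ℤ) (hx : 0 < x) (hq : 0 < q) (hco : IsCoprime t q) (hne : y ^ 2 ≠ x ^ 3)
    (hs : 20 * |q ^ 2 * x - t ^ 2| ≤ q ^ 2 * x) :
    ∃ D : ℤ, q ^ 2 ∣ D + t ^ 4 ∧
      |D| * (q ^ 2 * x) ≤ 80 * (q ^ 6 * |y ^ 2 - x ^ 3| + |q ^ 2 * x - t ^ 2| ^ 3) ∧
      (D = 0 → q = 1 ∧ x ^ 3 ≤ 200000 * (y ^ 2 - x ^ 3) ^ 4) := by
  have hX : 0 < q ^ 2 * x := by positivity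
  have ht0 : t ≠ 0 := by
    rintro rfl
    have : |q ^ 2 * x - 0 ^ 2| = q ^ 2 * x := by
      rw [zero_pow (by norm_num), sub_zero, abs_of_pos hX]
    rw [this] at hs
    linarith
  obtain ⟨T, hT⟩ : ∃ T, T = |t| := ⟨_, rfl⟩
  have hT1 : 1 ≤ T := hT ▸ Int.one_le_abs ht0
  have hT2 : t ^ 2 = T ^ 2 := by rw [hT, sq_abs]
  have hT4 : t ^ 4 = T ^ 4 := by
    calc t ^ 4 = (t ^ 2) ^ 2 := by ring
      _ = (T ^ 2) ^ 2 := by rw [hT2]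
      _ = _ := by ring
  rw [hT2] at hs ⊢
  obtain ⟨s, hsd⟩ : ∃ s, s = q ^ 2 * x - T ^ 2 := ⟨_, rfl⟩
  rw [← hsd] at hs ⊢
  have h19 : 19 * (q ^ 2 * x) ≤ 20 * T ^ 2 := by
    have := le_abs_self s
    linarith
  have h10 : 10 * |s| ≤ T ^ 2 := by linarith
  obtain ⟨k, hk⟩ : ∃ k, k = y ^ 2 - x ^ 3 := ⟨_, rfl⟩
  have hk0 : k ≠ 0 := by rw [hk]; exact sub_ne_zero.mpr hne
  have hk1 : 1 ≤ |k| := Int.one_le_abs hk0
  have hx3 : q ^ 6 * x ^ 3 ≤ 2 * T ^ 6 := by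
    have e2 : (19 * (q ^ 2 * x)) ^ 3 ≤ (20 * T ^ 2) ^ 3 := by gcongr
    have e3 : (0 : ℤ) ≤ T ^ 6 := by positivity
    have e4 : (19 * (q ^ 2 * x)) ^ 3 = 6859 * (q ^ 6 * x ^ 3) := by ring
    have e5 : (20 * T ^ 2) ^ 3 = 8000 * T ^ 6 := by ring
    rw [e4, e5] at e2
    linarith
  have hq1 : 1 ≤ q := hq
  by_cases hcase : q ^ 6 * |k| ≤ T ^ 6
  · refine ⟨3 * s ^ 2 - 4 * T * (2 * (q ^ 3 * |y|) - 2 * T ^ 3 - 3 * T * s), ?_, ?_, ?_⟩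
    · rw [hT4]
      refine ⟨3 * q ^ 2 * x ^ 2 + 6 * T ^ 2 * x - 8 * T * q * |y|, ?_⟩
      rw [hsd]; ring
    · have hc := core (T : ℝ) (s : ℝ) ((q : ℝ) ^ 3 * |(y : ℝ)|) (by exact_mod_cast hT1)
        (by exact_mod_cast h10) (by positivity) ?_
      · have e1 : ((T : ℝ) ^ 2 + s) ^ 3 - ((q : ℝ) ^ 3 * |(y : ℝ)|) ^ 2 = - ((q : ℝ) ^ 6 * k) := by
          have : (T : ℝ) ^ 2 + s = (q : ℝ) ^ 2 * x := by rw [hsd]; push_cast; ring
          rw [this, mul_pow _ |(y : ℝ)|, sq_abs, hk]; push_cast; ring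
        rw [e1, abs_neg, abs_mul, abs_of_nonneg (by positivity : (0 : ℝ) ≤ (q : ℝ) ^ 6)] at hc
        have hc' : T ^ 2 * |3 * s ^ 2 - 4 * T * (2 * (q ^ 3 * |y|) - 2 * T ^ 3 - 3 * T * s)| ≤
            40 * (q ^ 6 * |k|) + 30 * |s| ^ 3 := by exact_mod_cast hc
        obtain ⟨d, hd⟩ : ∃ d, d = |3 * s ^ 2 - 4 * T * (2 * (q ^ 3 * |y|) - 2 * T ^ 3 - 3 * T * s)| :=
          ⟨_, rfl⟩
        rw [← hd] at hc' ⊢
        have hd0 : 0 ≤ d := hd ▸ abs_nonneg _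
        have e2 : d * (19 * (q ^ 2 * x)) ≤ d * (20 * T ^ 2) := by gcongr
        have e3 : 0 ≤ q ^ 6 * |k| := by positivity
        have e4 : 0 ≤ |s| ^ 3 := by positivity
        rw [← hk]
        nlinarith
      · have e1 : ((T : ℝ) ^ 2 + s) ^ 3 - ((q : ℝ) ^ 3 * |(y : ℝ)|) ^ 2 = - ((q : ℝ) ^ 6 * k) := by
          have : (T : ℝ) ^ 2 + s = (q : ℝ) ^ 2 * x := by rw [hsd]; push_cast; ring
          rw [this, mul_pow _ |(y : ℝ)|, sq_abs, hk]; push_cast; ring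
        rw [e1, abs_neg, abs_mul, abs_of_nonneg (by positivity : (0 : ℝ) ≤ (q : ℝ) ^ 6)]
        exact_mod_cast hcase
    · intro hD
      have hqq : q = 1 := by
        apply q_eq_one hq hco
        rw [hT4]
        refine ⟨3 * q ^ 2 * x ^ 2 + 6 * T ^ 2 * x - 8 * T * q * |y|, ?_⟩
        rw [hsd] at hD
        linear_combination (-1 : ℤ) * hD
      refine ⟨hqq, ?_⟩
      subst hqq
      have hss : s = x - T ^ 2 := by rw [hsd]; ring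
      have := degenerate x |y| T hT1 (by rw [sq_abs]; exact hne)
        (by rw [← hss]; linarith) (by rw [← hss]; linear_combination hD)
      rwa [sq_abs] at this
  · push Not at hcase
    have h2k : x ^ 3 ≤ 2 * |k| := by
      have : q ^ 6 * x ^ 3 ≤ q ^ 6 * (2 * |k|) := by linarith
      exact le_of_mul_le_mul_left this (by positivity)
    have hxx : x ≤ x ^ 3 := by nlinarith [mul_pos hx hx]
    refine ⟨-(t ^ 4 % q ^ 2), ?_, ?_, ?_⟩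
    · refine ⟨t ^ 4 / q ^ 2, ?_⟩
      have := Int.emod_add_mul_ediv (t ^ 4) (q ^ 2)
      linarith
    · have h0 : 0 ≤ t ^ 4 % q ^ 2 := Int.emod_nonneg _ (by positivity)
      have h1 : t ^ 4 % q ^ 2 < q ^ 2 := Int.emod_lt_of_pos _ (by positivity)
      rw [abs_neg, abs_of_nonneg h0, ← hk]
      have e1 : t ^ 4 % q ^ 2 * (q ^ 2 * x) ≤ q ^ 2 * (q ^ 2 * x) := by gcongr
      have e2 : q ^ 2 * (q ^ 2 * x) ≤ q ^ 6 * (2 * |k|) := by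
        have : q ^ 2 * (q ^ 2 * x) = q ^ 4 * x := by ring
        rw [this]
        have h46 : q ^ 4 ≤ q ^ 6 := pow_le_pow_right₀ hq1 (by norm_num)
        calc q ^ 4 * x ≤ q ^ 6 * x := by gcongr
          _ ≤ q ^ 6 * (2 * |k|) := by gcongr; linarith
      have e3 : 0 ≤ q ^ 6 * |k| := by positivity
      have e4 : 0 ≤ |s| ^ 3 := by positivity
      nlinarith
    · intro hD
      have hmod : t ^ 4 % q ^ 2 = 0 := by linarith
      refine ⟨q_eq_one hq hco (Int.dvd_of_emod_eq_zero hmod), ?_⟩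
      rw [← hk]
      have e1 : |k| ≤ k ^ 4 := by
        have : k ^ 4 = |k| ^ 4 := by
          rw [show (4 : ℕ) = 2 * 2 by norm_num, pow_mul, pow_mul, sq_abs]
        rw [this]
        calc |k| = |k| ^ 1 := (pow_one _).symm
          _ ≤ |k| ^ 4 := pow_le_pow_right₀ hk1 (by norm_num)
      linarith

lemma reduce (t q : ℤ) (hq : 0 < q) : ∃ g t' q' : ℤ, 1 ≤ g ∧ 0 < q' ∧ IsCoprime t' q' ∧
    t = g * t' ∧ q = g * q' := by
  have hg : 0 < Int.gcd t q := Int.gcd_pos_of_ne_zero_right _ (by omega)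
  obtain ⟨m, n, h1, h2, h3⟩ := Int.exists_gcd_one hg
  refine ⟨(Int.gcd t q : ℤ), m, n, by exact_mod_cast hg, ?_, Int.isCoprime_iff_gcd_eq_one.mpr h1,
    by rw [mul_comm]; exact h2, by rw [mul_comm]; exact h3⟩
  have hg' : (0 : ℤ) < (Int.gcd t q : ℤ) := by exact_mod_cast hg
  by_contra hle
  push Not at hle
  have : n * (Int.gcd t q : ℤ) ≤ 0 := mul_nonpos_of_nonpos_of_nonneg hle hg'.le
  omega

lemma near_squares (x y t q : ℤ) (hx : 0 < x) (hq : 0 < q) (hne : y ^ 2 ≠ x ^ 3)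
    (hs : 160 * |q ^ 2 * x - t ^ 2| ^ 3 ≤ q ^ 2 * x) :
    x ^ 3 ≤ 200000 * (y ^ 2 - x ^ 3) ^ 4 ∨ x ≤ 160 * q ^ 4 * |y ^ 2 - x ^ 3| := by
  obtain ⟨g, t', q', hg, hq', hco, ht, hqq⟩ := reduce t q hq
  obtain ⟨s, hsd⟩ : ∃ s, s = |q' ^ 2 * x - t' ^ 2| := ⟨_, rfl⟩
  have hs0 : 0 ≤ s := hsd ▸ abs_nonneg _
  have hg0 : 0 < g := by linarith
  have hss : |q ^ 2 * x - t ^ 2| = g ^ 2 * s := by
    rw [ht, hqq, show (g * q') ^ 2 * x - (g * t') ^ 2 = g ^ 2 * (q' ^ 2 * x - t' ^ 2) by ring,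
      abs_mul, ← hsd, abs_of_pos (by positivity)]
  have hs' : 160 * s ^ 3 ≤ q' ^ 2 * x := by
    rw [hss, hqq] at hs
    have e1 : g ^ 2 * (160 * s ^ 3) ≤ g ^ 2 * (q' ^ 2 * x) := by
      have h46 : g ^ 2 ≤ g ^ 6 := pow_le_pow_right₀ hg (by norm_num)
      calc g ^ 2 * (160 * s ^ 3) ≤ g ^ 6 * (160 * s ^ 3) := by gcongr
        _ = 160 * (g ^ 2 * s) ^ 3 := by ring
        _ ≤ (g * q') ^ 2 * x := hs
        _ = _ := by ring
    exact le_of_mul_le_mul_left e1 (by positivity)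
  have hX : 0 < q' ^ 2 * x := by positivity
  have h20 : 20 * s ≤ q' ^ 2 * x := by
    rcases hs0.lt_or_eq with h | h
    · have : s ≤ s ^ 3 := by
        calc s = s ^ 1 := (pow_one _).symm
          _ ≤ s ^ 3 := pow_le_pow_right₀ h (by norm_num)
      linarith
    · rw [← h]; linarith
  obtain ⟨D, -, hD, hD0⟩ := A_main x y t' q' hx hq' hco hne (by rw [← hsd]; exact h20)
  rw [← hsd] at hD
  by_cases h0 : D = 0
  · exact Or.inl (hD0 h0).2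
  · right
    have h1 : 1 ≤ |D| := Int.one_le_abs h0
    obtain ⟨κ, hκ⟩ : ∃ κ, κ = |y ^ 2 - x ^ 3| := ⟨_, rfl⟩
    have hκ0 : 0 ≤ κ := hκ ▸ abs_nonneg _
    rw [← hκ] at hD ⊢
    have e1 : q' ^ 2 * x ≤ |D| * (q' ^ 2 * x) := by nlinarith
    have e2 : q' ^ 2 * x ≤ q' ^ 2 * (160 * q' ^ 4 * κ) := by nlinarith
    have e3 : x ≤ 160 * q' ^ 4 * κ := le_of_mul_le_mul_left e2 (by positivity)
    have e4 : q' ^ 4 ≤ q ^ 4 := by
      have : q' ≤ q := by rw [hqq]; nlinarith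
      gcongr
    calc x ≤ 160 * q' ^ 4 * κ := e3
      _ ≤ _ := by gcongr

lemma near_squares_two (x y t q : ℤ) (hx : 0 < x) (hq : 0 < q) (hne : y ^ 2 ≠ x ^ 3)
    (hs : 1000000 * (q ^ 2 * x - t ^ 2) ^ 4 ≤ q ^ 2 * x) :
    x ≤ 22 * |y ^ 2 - x ^ 3| ∨ x ^ 3 ≤ 800 * q ^ 6 * (y ^ 2 - x ^ 3) ^ 2 := by
  obtain ⟨g, t', q', hg, hq', hco, ht, hqq⟩ := reduce t q hq
  have hg0 : 0 < g := by linarith
  obtain ⟨T, hT⟩ : ∃ T, T = |t'| := ⟨_, rfl⟩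
  have hT2 : t' ^ 2 = T ^ 2 := by rw [hT, sq_abs]
  obtain ⟨s, hsd⟩ : ∃ s, s = q' ^ 2 * x - T ^ 2 := ⟨_, rfl⟩
  have hss : q ^ 2 * x - t ^ 2 = g ^ 2 * s := by
    rw [ht, hqq, hsd, ← hT2]; ring
  have hX : 0 < q' ^ 2 * x := by positivity
  have hs' : 1000000 * s ^ 4 ≤ q' ^ 2 * x := by
    rw [hss, hqq] at hs
    have e1 : g ^ 2 * (1000000 * s ^ 4) ≤ g ^ 2 * (q' ^ 2 * x) := by
      have h46 : g ^ 2 ≤ g ^ 8 := pow_le_pow_right₀ hg (by norm_num)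
      have h4 : 0 ≤ s ^ 4 := by positivity
      calc g ^ 2 * (1000000 * s ^ 4) ≤ g ^ 8 * (1000000 * s ^ 4) := by gcongr
        _ = 1000000 * (g ^ 2 * s) ^ 4 := by ring
        _ ≤ (g * q') ^ 2 * x := hs
        _ = _ := by ring
    exact le_of_mul_le_mul_left e1 (by positivity)
  have hsabs : |s| ^ 4 = s ^ 4 := by
    rw [show (4 : ℕ) = 2 * 2 by norm_num, pow_mul, pow_mul, sq_abs]
  have hs1 : |s| ≤ s ^ 4 := by
    rw [← hsabs]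
    rcases (abs_nonneg s).lt_or_eq with h | h
    · calc |s| = |s| ^ 1 := (pow_one _).symm
        _ ≤ |s| ^ 4 := pow_le_pow_right₀ h (by norm_num)
    · rw [← h]; norm_num
  have h20 : 20 * |s| ≤ q' ^ 2 * x := by linarith
  have h19 : 19 * (q' ^ 2 * x) ≤ 20 * T ^ 2 := by
    have := le_abs_self s
    linarith
  have h10 : 10 * |s| ≤ T ^ 2 := by linarith
  have hT0 : 0 < T ^ 2 := by linarith
  have hT1 : 1 ≤ T := by
    have : 0 ≤ T := hT ▸ abs_nonneg _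
    rcases this.lt_or_eq with h | h
    · exact h
    · rw [← h] at hT0; norm_num at hT0
  have hsq : 900 * s ^ 2 ≤ T := by
    have e1 : (900 * s ^ 2) ^ 2 ≤ T ^ 2 := by
      have : (900 * s ^ 2) ^ 2 = 810000 * s ^ 4 := by ring
      rw [this]; linarith
    exact abs_le_of_sq_le_sq' e1 (by linarith) |>.2
  obtain ⟨k, hk⟩ : ∃ k, k = y ^ 2 - x ^ 3 := ⟨_, rfl⟩
  have hk0 : k ≠ 0 := by rw [hk]; exact sub_ne_zero.mpr hne
  rw [← hk]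
  have hx3 : q' ^ 6 * x ^ 3 ≤ 2 * T ^ 6 := by
    have e2 : (19 * (q' ^ 2 * x)) ^ 3 ≤ (20 * T ^ 2) ^ 3 := by gcongr
    have e3 : (0 : ℤ) ≤ T ^ 6 := by positivity
    have e4 : (19 * (q' ^ 2 * x)) ^ 3 = 6859 * (q' ^ 6 * x ^ 3) := by ring
    have e5 : (20 * T ^ 2) ^ 3 = 8000 * T ^ 6 := by ring
    rw [e4, e5] at e2
    linarith
  have fin : ∀ c : ℤ, 0 ≤ c → T ^ 3 ≤ 20 * c → c = q' ^ 6 * |k| → 
      x ^ 3 ≤ 800 * q ^ 6 * k ^ 2 := by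
    intro c hc0 hc hck
    have e1 : (T ^ 3) ^ 2 ≤ (20 * c) ^ 2 := by gcongr
    have e2 : q' ^ 6 * x ^ 3 ≤ q' ^ 6 * (800 * q' ^ 6 * k ^ 2) := by
      have : (20 * c) ^ 2 = 400 * (q' ^ 12 * k ^ 2) := by
        rw [hck, mul_pow, mul_pow, sq_abs]; ring
      rw [this] at e1
      calc q' ^ 6 * x ^ 3 ≤ 2 * T ^ 6 := hx3
        _ = 2 * (T ^ 3) ^ 2 := by ring
        _ ≤ 2 * (400 * (q' ^ 12 * k ^ 2)) := by linarith
        _ = _ := by ring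
    have e3 : x ^ 3 ≤ 800 * q' ^ 6 * k ^ 2 := le_of_mul_le_mul_left e2 (by positivity)
    have e4 : q' ^ 6 ≤ q ^ 6 := by
      have : q' ≤ q := by rw [hqq]; nlinarith
      gcongr
    calc x ^ 3 ≤ 800 * q' ^ 6 * k ^ 2 := e3
      _ ≤ _ := by gcongr
  by_cases hcase : q' ^ 6 * |k| ≤ T ^ 6
  · have e1 : ((T : ℝ) ^ 2 + s) ^ 3 - ((q' : ℝ) ^ 3 * |(y : ℝ)|) ^ 2 = - ((q' : ℝ) ^ 6 * k) := by
      have : (T : ℝ) ^ 2 + s = (q' : ℝ) ^ 2 * x := by rw [hsd]; push_cast; ring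
      rw [this, mul_pow _ |(y : ℝ)|, sq_abs, hk]; push_cast; ring
    have hc := core (T : ℝ) (s : ℝ) ((q' : ℝ) ^ 3 * |(y : ℝ)|) (by exact_mod_cast hT1)
        (by exact_mod_cast h10) (by positivity) (by
          rw [e1, abs_neg, abs_mul, abs_of_nonneg (by positivity : (0 : ℝ) ≤ (q' : ℝ) ^ 6)]
          exact_mod_cast hcase)
    rw [e1, abs_neg, abs_mul, abs_of_nonneg (by positivity : (0 : ℝ) ≤ (q' : ℝ) ^ 6)] at hc
    have hc' : T ^ 2 * |3 * s ^ 2 - 4 * T * (2 * (q' ^ 3 * |y|) - 2 * T ^ 3 - 3 * T * s)| ≤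
        40 * (q' ^ 6 * |k|) + 30 * |s| ^ 3 := by exact_mod_cast hc
    obtain ⟨U, hU⟩ : ∃ U, U = 2 * (q' ^ 3 * |y|) - 2 * T ^ 3 - 3 * T * s := ⟨_, rfl⟩
    rw [← hU] at hc'
    have hs3 : |s| ^ 3 ≤ s ^ 4 := by
      rw [← hsabs]
      rcases (abs_nonneg s).lt_or_eq with h | h
      · exact pow_le_pow_right₀ h (by norm_num)
      · rw [← h]; norm_num
    by_cases hU0 : U = 0
    · left
      have hqq1 : q' = 1 := by
        have hdvd : q' ^ 2 ∣ T ^ 3 := by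
          refine ⟨3 * T * x - 2 * q' * |y|, ?_⟩
          rw [hU, hsd] at hU0
          linear_combination hU0
        have hcoT : IsCoprime T q' := by rw [hT]; exact hco.abs_left
        have h1 : IsCoprime (T ^ 3) (q' ^ 2) := hcoT.pow
        have h2 : IsUnit (q' ^ 2) := h1.symm.isUnit_of_dvd' dvd_rfl hdvd
        have h3 : IsUnit q' := (isUnit_pow_iff (by norm_num)).mp h2
        rcases Int.isUnit_iff.mp h3 with h | h
        · exact h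
        · omega
      rw [hU0] at hc'
      have hs0 : s ≠ 0 := by
        intro h0
        apply hne
        rw [hqq1] at hU hsd
        have a1 : x = T ^ 2 := by rw [h0] at hsd; linarith
        have a2 : |y| = T ^ 3 := by rw [hU0, h0] at hU; linarith
        rw [← sq_abs y, a1, a2]; ring
      have hsq1 : 1 ≤ s ^ 2 := by
        have : 0 < s ^ 2 := by positivity
        linarith
      have e2 : |3 * s ^ 2 - 4 * T * 0| = 3 * s ^ 2 := by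
        rw [mul_zero, sub_zero]; exact abs_of_nonneg (by positivity)
      rw [e2, hqq1] at hc'
      have e3 : s ^ 4 * 30 ≤ T ^ 2 * s ^ 2 := by
        have : s ^ 4 * 30 = s ^ 2 * (30 * s ^ 2) := by ring
        rw [this]
        have : 30 * s ^ 2 ≤ T ^ 2 := by nlinarith
        nlinarith
      have e4 : T ^ 2 ≤ T ^ 2 * s ^ 2 := le_mul_of_one_le_right hT0.le hsq1
      have e5 : T ^ 2 ≤ 20 * |k| := by
        have f1 : T ^ 2 * (3 * s ^ 2) = 3 * (T ^ 2 * s ^ 2) := by ring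
        rw [f1, one_pow, one_mul] at hc'
        linarith
      rw [hqq1] at h19
      linarith
    · right
      have hU1 : 1 ≤ |U| := Int.one_le_abs hU0
      have hDlow : 3 * T ≤ |3 * s ^ 2 - 4 * T * U| := by
        have a1 : |4 * T * U| - |3 * s ^ 2| ≤ |3 * s ^ 2 - 4 * T * U| := by
          rw [abs_sub_comm]; exact abs_sub_abs_le_abs_sub _ _
        have a2 : |3 * s ^ 2| = 3 * s ^ 2 := abs_of_nonneg (by positivity)
        have a3 : |4 * T * U| = 4 * T * |U| := by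
          rw [abs_mul, abs_of_pos (by linarith)]
        have a4 : 4 * T ≤ 4 * T * |U| := by nlinarith
        rw [a2, a3] at a1
        linarith
      have e5 : T ^ 2 * (3 * T) ≤ 40 * (q' ^ 6 * |k|) + 30 * |s| ^ 3 :=
        (by gcongr : T ^ 2 * (3 * T) ≤ _).trans hc'
      have e6 : 30 * s ^ 4 ≤ T ^ 3 := by
        have : T ^ 2 ≤ T ^ 3 := pow_le_pow_right₀ hT1 (by norm_num)
        linarith
      refine fin (q' ^ 6 * |k|) (by positivity) ?_ rfl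
      have e7 : T ^ 2 * (3 * T) = 3 * T ^ 3 := by ring
      rw [e7] at e5
      linarith
  · push Not at hcase
    right
    refine fin (q' ^ 6 * |k|) (by positivity) ?_ rfl
    have h0 : 0 ≤ q' ^ 6 * |k| := by positivity
    have : T ^ 3 ≤ T ^ 6 := pow_le_pow_right₀ hT1 (by norm_num)
    linarith

/-- Dirichlet's theorem for the square root of `x`. -/
lemma dirichlet (B : ℝ) (hB : 1 ≤ B) (x : ℤ) (hx : 0 < x) : ∃ t q : ℤ, 0 < q ∧ IsCoprime t q ∧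
    (q : ℝ) ^ 6 ≤ 64 * B * x ∧ B * x * |q * √x - t| ^ 6 ≤ 1 ∧
    B * ((q : ℝ) ^ 2 * x - t ^ 2) ^ 6 ≤ 729 * (q : ℝ) ^ 6 * x ^ 2 := by
  have hx1 : (1 : ℝ) ≤ x := by exact_mod_cast hx
  have hBx : 1 ≤ B * x := one_le_mul_of_one_le_of_one_le hB hx1
  obtain ⟨r, hr⟩ : ∃ r : ℝ, r = (B * x) ^ ((1 : ℝ) / 6) := ⟨_, rfl⟩
  have hr1 : 1 ≤ r := by rw [hr]; exact Real.one_le_rpow hBx (by norm_num)
  have hr6 : r ^ 6 = B * x := by
    rw [hr, ← Real.rpow_natCast, ← Real.rpow_mul (by linarith)]; norm_num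
  obtain ⟨n, hn⟩ : ∃ n : ℕ, n = ⌈r⌉₊ := ⟨_, rfl⟩
  have hrn : r ≤ n := by rw [hn]; exact Nat.le_ceil r
  have hn1 : (1 : ℝ) ≤ n := hr1.trans hrn
  have hn2 : (n : ℝ) ≤ 2 * r := by
    have := Nat.ceil_lt_add_one (by linarith : 0 ≤ r)
    rw [← hn] at this
    linarith
  have hn0 : 0 < n := by
    have : (0 : ℝ) < n := by linarith
    exact_mod_cast this
  obtain ⟨p, hp1, hp2⟩ := Real.exists_rat_abs_sub_le_and_den_le (√x) hn0
  have hq0 : (0 : ℝ) < p.den := by exact_mod_cast p.pos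
  have hq1 : (1 : ℝ) ≤ p.den := by exact_mod_cast p.pos
  have hqn : (p.den : ℝ) ≤ n := by exact_mod_cast hp2
  have hsq : √(x : ℝ) ^ 2 = x := Real.sq_sqrt (by linarith)
  have hs1 : 1 ≤ √(x : ℝ) := Real.one_le_sqrt.mpr hx1
  have hpp : (p : ℝ) = p.num / p.den := by exact_mod_cast (Rat.num_div_den p).symm
  have hδ : |(p.den : ℝ) * √x - p.num| ≤ 1 / n := by
    have e1 : (p.den : ℝ) * √x - p.num = p.den * (√x - p) := by rw [hpp]; field_simp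
    rw [e1, abs_mul, abs_of_pos hq0]
    calc (p.den : ℝ) * |√x - p| ≤ p.den * (1 / ((n + 1) * p.den)) := by gcongr
      _ = 1 / (n + 1) := by field_simp
      _ ≤ 1 / n := by gcongr; linarith
  refine ⟨p.num, p.den, by exact_mod_cast p.pos, ?_, ?_, ?_, ?_⟩
  · rw [Int.isCoprime_iff_gcd_eq_one]
    exact p.reduced
  · push_cast
    calc (p.den : ℝ) ^ 6 ≤ (2 * r) ^ 6 := by gcongr; linarith
      _ = 64 * B * x := by rw [mul_pow, hr6]; ring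
  · push_cast
    have e1 : |(p.den : ℝ) * √x - p.num| ^ 6 ≤ (1 / r) ^ 6 := by
      gcongr
      exact hδ.trans (by gcongr)
    calc B * x * |(p.den : ℝ) * √x - p.num| ^ 6 ≤ B * x * (1 / r) ^ 6 := by gcongr
      _ = 1 := by rw [div_pow, one_pow, ← hr6]; field_simp
  · push_cast
    obtain ⟨δ, hδd⟩ : ∃ δ, δ = (p.den : ℝ) * √x - p.num := ⟨_, rfl⟩
    rw [← hδd] at hδ
    have e0 : (p.den : ℝ) ^ 2 * x - (p.num : ℝ) ^ 2 = δ * (2 * p.den * √x - δ) := by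
      have : (p.num : ℝ) = p.den * √x - δ := by rw [hδd]; ring
      rw [this]
      linear_combination (-(p.den : ℝ) ^ 2) * hsq
    have hδ1 : |δ| ≤ 1 := hδ.trans (by rw [div_le_one (by linarith)]; exact hn1)
    have e1 : |2 * (p.den : ℝ) * √x - δ| ≤ 3 * p.den * √x := by
      have a1 : |2 * (p.den : ℝ) * √x| = 2 * p.den * √x := abs_of_nonneg (by positivity)
      have a2 : 1 ≤ (p.den : ℝ) * √x := one_le_mul_of_one_le_of_one_le hq1 hs1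
      calc |2 * (p.den : ℝ) * √x - δ| ≤ |2 * (p.den : ℝ) * √x| + |δ| := abs_sub _ _
        _ ≤ 3 * p.den * √x := by rw [a1]; linarith
    have e2 : |(p.den : ℝ) ^ 2 * x - (p.num : ℝ) ^ 2| ≤ (1 / r) * (3 * p.den * √x) := by
      rw [e0, abs_mul]
      gcongr
      exact hδ.trans (by gcongr)
    have e3 : ((p.den : ℝ) ^ 2 * x - (p.num : ℝ) ^ 2) ^ 6 ≤ ((1 / r) * (3 * p.den * √x)) ^ 6 := by
      have : ((p.den : ℝ) ^ 2 * x - (p.num : ℝ) ^ 2) ^ 6 =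
          |(p.den : ℝ) ^ 2 * x - (p.num : ℝ) ^ 2| ^ 6 := by
        rw [show (6 : ℕ) = 2 * 3 by norm_num, pow_mul, pow_mul, sq_abs]
      rw [this]; gcongr
    have e4 : ((1 / r) * (3 * (p.den : ℝ) * √x)) ^ 6 = 729 * p.den ^ 6 * x ^ 3 / (B * x) := by
      rw [← hr6]
      have : √(x : ℝ) ^ 6 = x ^ 3 := by
        calc √(x : ℝ) ^ 6 = (√(x : ℝ) ^ 2) ^ 3 := by ring
          _ = _ := by rw [hsq]
      have hr0 : r ≠ 0 := by linarith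
      field_simp
      rw [this]; norm_num
    rw [e4] at e3
    have hx0 : (0 : ℝ) < x := by linarith
    have hB0 : 0 < B := by linarith
    calc B * ((p.den : ℝ) ^ 2 * x - (p.num : ℝ) ^ 2) ^ 6
        ≤ B * (729 * p.den ^ 6 * x ^ 3 / (B * x)) := by gcongr
      _ = _ := by field_simp

lemma every (ε : ℝ) (hε : 0 < ε) : ∃ C : ℝ, 1 ≤ C ∧ ∀ x : ℤ, 0 < x → ∃ t q : ℤ,
    0 < q ∧ IsCoprime t q ∧ (q : ℝ) ^ 6 ≤ C * x ∧ x * |q * √x - t| ^ 6 ≤ ε ∧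
    ∀ y : ℤ, y ^ 2 ≠ x ^ 3 → (x : ℝ) ≤ C * ((y : ℝ) ^ 2 - x ^ 3) ^ 2 ∨
      ∃ D : ℤ, q ^ 2 ∣ D + t ^ 4 ∧ D ≠ 0 ∧ |(D : ℝ)| ≤ ε * q := by
  obtain ⟨B, hB⟩ : ∃ B : ℝ, B = 50000000000 * (1 + 1 / ε ^ 2) := ⟨_, rfl⟩
  have hε2 : 0 < 1 / ε ^ 2 := by positivity
  have hB1 : 50000000000 ≤ B := by rw [hB]; linarith
  have hB2 : 50000000000 ≤ ε ^ 2 * B := by
    have : ε ^ 2 * B = 50000000000 * (ε ^ 2 + 1) := by rw [hB]; field_simp
    rw [this]; nlinarith [sq_nonneg ε]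
  have hB3 : 1 ≤ ε * B := by
    by_contra hlt
    push Not at hlt
    have h1 : ε * (ε * B) ≤ ε * 1 := by gcongr
    have h2 : ε ^ 2 * B ≤ ε := by linarith
    have h3 : ε * B ≥ ε * 50000000000 := by gcongr
    linarith
  obtain ⟨C, hC⟩ : ∃ C : ℝ, C = (160 / ε) ^ 2 * (64 * B) + 64 * B + 200000 := ⟨_, rfl⟩
  have hC0 : 0 ≤ (160 / ε) ^ 2 * (64 * B) := by positivity
  refine ⟨C, by rw [hC]; linarith, ?_⟩
  intro x hx
  have hx1 : (1 : ℝ) ≤ x := by exact_mod_cast hx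
  obtain ⟨t, q, hq, hco, h1, h2, h3⟩ := dirichlet B (by linarith) x hx
  have hq1 : (1 : ℝ) ≤ q := by exact_mod_cast hq
  obtain ⟨a, ha⟩ : ∃ a : ℝ, a = |(q : ℝ) ^ 2 * x - t ^ 2| := ⟨_, rfl⟩
  have ha0 : 0 ≤ a := ha ▸ abs_nonneg _
  have h3' : B * a ^ 6 ≤ 729 * (q : ℝ) ^ 6 * x ^ 2 := by
    have : a ^ 6 = ((q : ℝ) ^ 2 * x - t ^ 2) ^ 6 := by
      rw [ha, show (6 : ℕ) = 2 * 3 by norm_num, pow_mul, pow_mul, sq_abs]
    rw [this]; exact h3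
  have h20 : 20 * a ≤ (q : ℝ) ^ 2 * x := by
    by_contra hlt
    push Not at hlt
    have e1 : ((q : ℝ) ^ 2 * x) ^ 6 < (20 * a) ^ 6 := by gcongr
    have e2 : (q : ℝ) ^ 6 * x ^ 2 ≤ ((q : ℝ) ^ 2 * x) ^ 6 := by
      have a1 : (q : ℝ) ^ 6 ≤ (q : ℝ) ^ 12 := pow_le_pow_right₀ hq1 (by norm_num)
      have a2 : (x : ℝ) ^ 2 ≤ (x : ℝ) ^ 6 := pow_le_pow_right₀ hx1 (by norm_num)
      calc (q : ℝ) ^ 6 * x ^ 2 ≤ (q : ℝ) ^ 12 * x ^ 6 := by gcongr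
        _ = _ := by ring
    have e3 : (20 * a) ^ 6 = 64000000 * a ^ 6 := by ring
    rw [e3] at e1
    have e4 : 50000000000 * a ^ 6 ≤ B * a ^ 6 := by gcongr
    have e5 : 0 ≤ a ^ 6 := by positivity
    linarith
  have hcube : 160 * a ^ 3 ≤ ε * ((q : ℝ) ^ 3 * x) := by
    have hx0 : (0 : ℝ) < x := by linarith
    have e1 : (160 * a ^ 3) ^ 2 ≤ (ε * ((q : ℝ) ^ 3 * x)) ^ 2 := by
      have e2 : (160 * a ^ 3) ^ 2 = 25600 * a ^ 6 := by ring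
      have e3 : (ε * ((q : ℝ) ^ 3 * x)) ^ 2 = ε ^ 2 * (q ^ 6 * x ^ 2) := by ring
      rw [e2, e3]
      have e4 : ε ^ 2 * (B * a ^ 6) ≤ ε ^ 2 * (729 * (q : ℝ) ^ 6 * x ^ 2) := by gcongr
      have e5 : 50000000000 * a ^ 6 ≤ (ε ^ 2 * B) * a ^ 6 := by gcongr
      have e6 : 0 ≤ ε ^ 2 * ((q : ℝ) ^ 6 * x ^ 2) := by positivity
      linarith
    exact (abs_le_of_sq_le_sq' e1 (by positivity)).2
  refine ⟨t, q, hq, hco, ?_, ?_, ?_⟩
  · calc (q : ℝ) ^ 6 ≤ 64 * B * x := h1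
      _ ≤ C * x := by gcongr; rw [hC]; linarith
  · obtain ⟨w, hw⟩ : ∃ w, w = |(q : ℝ) * √x - t| ^ 6 := ⟨_, rfl⟩
    rw [← hw] at h2 ⊢
    have hw0 : 0 ≤ w := by rw [hw]; positivity
    have e1 : (ε * B) * (x * w) ≤ ε := by
      have : (ε * B) * (x * w) = ε * (B * x * w) := by ring
      rw [this]
      calc ε * (B * x * w) ≤ ε * 1 := by gcongr
        _ = ε := mul_one _
    have e2 : 1 * (x * w) ≤ (ε * B) * (x * w) := by gcongr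
    linarith
  · intro y hne
    have hs : 20 * |q ^ 2 * x - t ^ 2| ≤ q ^ 2 * x := by
      rw [ha] at h20
      exact_mod_cast h20
    obtain ⟨D, hD1, hD2, hD3⟩ := A_main x y t q hx hq hco hne hs
    obtain ⟨k, hk⟩ : ∃ k : ℝ, k = (y : ℝ) ^ 2 - x ^ 3 := ⟨_, rfl⟩
    have hD2' : |(D : ℝ)| * ((q : ℝ) ^ 2 * x) ≤ 80 * ((q : ℝ) ^ 6 * |k| + a ^ 3) := by
      rw [ha, hk]
      exact_mod_cast hD2
    rw [← hk]
    by_cases h0 : D = 0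
    · left
      obtain ⟨-, h5⟩ := hD3 h0
      have h5' : (x : ℝ) ^ 3 ≤ 200000 * k ^ 4 := by rw [hk]; exact_mod_cast h5
      have h6 : (x : ℝ) ≤ 200000 * k ^ 2 := by
        by_contra hlt
        push Not at hlt
        have g1 : (200000 * k ^ 2) * (200000 * k ^ 2) ≤ (x : ℝ) * x := by gcongr
        have g2 : (x : ℝ) * x ≤ x ^ 3 := by
          have : (x : ℝ) * x = x ^ 2 := by ring
          rw [this]
          exact pow_le_pow_right₀ hx1 (by norm_num)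
        have g3 : 0 ≤ k ^ 4 := by positivity
        have g4 : k ^ 4 ≤ 0 := by
          have : (200000 * k ^ 2) * (200000 * k ^ 2) = 40000000000 * k ^ 4 := by ring
          linarith
        have g5 : (x : ℝ) ^ 3 ≤ 0 := by linarith
        have g6 : (0 : ℝ) < x ^ 3 := by positivity
        linarith
      calc (x : ℝ) ≤ 200000 * k ^ 2 := h6
        _ ≤ C * k ^ 2 := by gcongr; rw [hC]; linarith
    · by_cases hsm : |(D : ℝ)| ≤ ε * q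
      · exact Or.inr ⟨D, hD1, h0, hsm⟩
      · left
        push Not at hsm
        have hx0 : (0 : ℝ) < x := by linarith
        have hq0 : (0 : ℝ) < q := by linarith
        have e1 : ε * q * ((q : ℝ) ^ 2 * x) ≤ |(D : ℝ)| * ((q : ℝ) ^ 2 * x) := by gcongr
        have e2 : ε * ((q : ℝ) ^ 3 * x) ≤ 160 * ((q : ℝ) ^ 6 * |k|) := by linarith
        have e3 : (q : ℝ) ^ 3 * (ε * x) ≤ (q : ℝ) ^ 3 * (160 * ((q : ℝ) ^ 3 * |k|)) := by linarith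
        have e4 : ε * x ≤ 160 * ((q : ℝ) ^ 3 * |k|) := le_of_mul_le_mul_left e3 (by positivity)
        have e5 : (ε * x) ^ 2 ≤ (160 * ((q : ℝ) ^ 3 * |k|)) ^ 2 := by gcongr
        have e6 : (160 * ((q : ℝ) ^ 3 * |k|)) ^ 2 = 25600 * ((q : ℝ) ^ 6 * k ^ 2) := by
          rw [mul_pow, mul_pow, sq_abs]; ring
        rw [e6] at e5
        have e7 : 25600 * ((q : ℝ) ^ 6 * k ^ 2) ≤ 25600 * (64 * B * x * k ^ 2) := by gcongr
        have e8 : x * (ε ^ 2 * x) ≤ x * (25600 * (64 * B) * k ^ 2) := by linarith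
        have e9 : ε ^ 2 * x ≤ 25600 * (64 * B) * k ^ 2 := le_of_mul_le_mul_left e8 hx0
        have e10 : (x : ℝ) ≤ (160 / ε) ^ 2 * (64 * B) * k ^ 2 := by
          have : (160 / ε) ^ 2 * (64 * B) * k ^ 2 = (25600 * (64 * B) * k ^ 2) / ε ^ 2 := by
            field_simp; ring
          rw [this, le_div_iff₀ (by positivity)]
          linarith
        calc (x : ℝ) ≤ (160 / ε) ^ 2 * (64 * B) * k ^ 2 := e10
          _ ≤ C * k ^ 2 := by gcongr; rw [hC]; linarith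

lemma hall_form (C : ℝ) (hC : 1 ≤ C) (x y k : ℤ) (hk : k ≠ 0) (hx : 0 < x) (h : y ^ 2 = x ^ 3 + k)
    (hx2 : (x : ℝ) ≤ C * (k : ℝ) ^ 2) : |(y : ℝ)| ≤ (C + 1) ^ 3 * |(k : ℝ)| ^ 3 := by
  have hk1 : (1 : ℝ) ≤ |(k : ℝ)| := by
    have := Int.one_le_abs hk
    exact_mod_cast this
  obtain ⟨κ, hκ⟩ : ∃ κ, κ = |(k : ℝ)| := ⟨_, rfl⟩
  have hk2 : (k : ℝ) ^ 2 = κ ^ 2 := by rw [hκ, sq_abs]
  rw [← hκ] at hk1 ⊢
  rw [hk2] at hx2
  have hx0 : (0 : ℝ) < x := by exact_mod_cast hx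
  have h' : (y : ℝ) ^ 2 = x ^ 3 + k := by exact_mod_cast h
  have e1 : (x : ℝ) ^ 3 ≤ (C * κ ^ 2) ^ 3 := by gcongr
  have e2 : (k : ℝ) ≤ κ := by rw [hκ]; exact le_abs_self _
  have e3 : κ ≤ κ ^ 6 := by
    calc κ = κ ^ 1 := (pow_one _).symm
      _ ≤ κ ^ 6 := pow_le_pow_right₀ hk1 (by norm_num)
  have e4 : C ^ 3 + 1 ≤ (C + 1) ^ 6 := by
    have a1 : C ^ 3 + 1 ≤ (C + 1) ^ 3 := by nlinarith [mul_pos (show 0 < C by linarith) (show 0 < C by linarith)]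
    have a2 : (C + 1) ^ 3 ≤ (C + 1) ^ 6 := pow_le_pow_right₀ (by linarith) (by norm_num)
    linarith
  have e5 : (y : ℝ) ^ 2 ≤ ((C + 1) ^ 3 * κ ^ 3) ^ 2 := by
    have b1 : (y : ℝ) ^ 2 ≤ (C ^ 3 + 1) * κ ^ 6 := by
      rw [h']
      have : (C * κ ^ 2) ^ 3 = C ^ 3 * κ ^ 6 := by ring
      linarith
    have b2 : (C ^ 3 + 1) * κ ^ 6 ≤ (C + 1) ^ 6 * κ ^ 6 := by gcongr
    have b3 : ((C + 1) ^ 3 * κ ^ 3) ^ 2 = (C + 1) ^ 6 * κ ^ 6 := by ring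
    linarith
  exact abs_le_of_sq_le_sq e5 (by positivity)

theorem result :
    -- (1) one approximation `t / q` in lowest terms
    (∀ x y t q : ℤ, 0 < x → 0 < q → IsCoprime t q → y ^ 2 ≠ x ^ 3 →
      20 * |q ^ 2 * x - t ^ 2| ≤ q ^ 2 * x →
      ∃ D : ℤ, q ^ 2 ∣ D + t ^ 4 ∧
        |D| * (q ^ 2 * x) ≤ 80 * (q ^ 6 * |y ^ 2 - x ^ 3| + |q ^ 2 * x - t ^ 2| ^ 3) ∧
        (D = 0 → q = 1 ∧ x ^ 3 ≤ 200000 * (y ^ 2 - x ^ 3) ^ 4)) ∧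
    -- (2) `x` near the square of a rational number
    (∀ x y t q : ℤ, 0 < x → 0 < q → y ^ 2 ≠ x ^ 3 →
      160 * |q ^ 2 * x - t ^ 2| ^ 3 ≤ q ^ 2 * x →
      x ^ 3 ≤ 200000 * (y ^ 2 - x ^ 3) ^ 4 ∨ x ≤ 160 * q ^ 4 * |y ^ 2 - x ^ 3|) ∧
    (∀ x y t q : ℤ, 0 < x → 0 < q → y ^ 2 ≠ x ^ 3 →
      1000000 * (q ^ 2 * x - t ^ 2) ^ 4 ≤ q ^ 2 * x →
      x ≤ 22 * |y ^ 2 - x ^ 3| ∨ x ^ 3 ≤ 800 * q ^ 6 * (y ^ 2 - x ^ 3) ^ 2) ∧
    -- (3) all `x`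
    (∀ ε : ℝ, 0 < ε → ∃ C : ℝ, ∀ x : ℤ, 0 < x → ∃ t q : ℤ,
      0 < q ∧ IsCoprime t q ∧ (q : ℝ) ^ 6 ≤ C * x ∧ x * |q * √x - t| ^ 6 ≤ ε ∧
      ((∀ y k : ℤ, k ≠ 0 → y ^ 2 = x ^ 3 + k →
          |(x : ℝ)| ≤ C * |(k : ℝ)| ^ 2 ∧ |(y : ℝ)| ≤ C * |(k : ℝ)| ^ 3) ∨
        ∃ D : ℤ, q ^ 2 ∣ D + t ^ 4 ∧ D ≠ 0 ∧ |(D : ℝ)| ≤ ε * q)) := by
  refine ⟨fun x y t q hx hq hco hne hs => A_main x y t q hx hq hco hne hs,
    fun x y t q hx hq hne hs => near_squares x y t q hx hq hne hs,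
    fun x y t q hx hq hne hs => near_squares_two x y t q hx hq hne hs, ?_⟩
  intro ε hε
  obtain ⟨C, hC, h⟩ := every ε hε
  have hCC : C ≤ (C + 1) ^ 3 := by
    have a1 : C + 1 ≤ (C + 1) ^ 3 := by
      calc C + 1 = (C + 1) ^ 1 := (pow_one _).symm
        _ ≤ (C + 1) ^ 3 := pow_le_pow_right₀ (by linarith) (by norm_num)
    linarith
  refine ⟨(C + 1) ^ 3, fun x hx => ?_⟩
  obtain ⟨t, q, hq, hco, h1, h2, h3⟩ := h x hx
  have hx0 : (0 : ℝ) < x := by exact_mod_cast hx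
  refine ⟨t, q, hq, hco, h1.trans (by gcongr), h2, ?_⟩
  by_cases hD : ∃ D : ℤ, q ^ 2 ∣ D + t ^ 4 ∧ D ≠ 0 ∧ |(D : ℝ)| ≤ ε * q
  · exact Or.inr hD
  · left
    intro y k hk hy
    have hne : y ^ 2 ≠ x ^ 3 := by
      intro h0
      apply hk
      linarith
    have h4 := (h3 y hne).resolve_right hD
    have hyk : (y : ℝ) ^ 2 - x ^ 3 = k := by
      have : (y : ℝ) ^ 2 = x ^ 3 + k := by exact_mod_cast hy
      linarith
    rw [hyk] at h4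
    refine ⟨?_, hall_form C hC x y k hk hx hy h4⟩
    rw [abs_of_pos hx0, sq_abs]
    calc (x : ℝ) ≤ C * k ^ 2 := h4
      _ ≤ _ := by gcongr

end Pool.Agent.Results.MP_f2148a_nt.RationalSquares
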